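import Pool.Agent.KS6_60.DF.Comp

/-!
# Dedekind finiteness and stable finiteness are `Π⁰₁`-complete

`ProperIdeal A` is the space of proper closed two-sided ideals of `A` with the Wijsman topology
(`wijsman A`), `QuotientDedekindFinite K` says that `A / K` is Dedekind finite, `MatDF K n` that
`M_n(A / K)` is, `StablyFinite K` that all of them are, and `L1` is `ℓ₁(S)`, the completion of the
monoid algebra of the free monoid `S` on countably many generators in the `ℓ₁`-norm `N`.
-/

set_option autoImplicit false

namespace Pool.Agent.Results.MP_332c3b_lc.ExactClass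

open Pool.Agent.KS6_60.DF

/-- **`Π⁰₁`-completeness on the proper closed ideals `K` of `A = ℓ₁(S)`.**
(1) Every set `X` of proper closed ideals which contains all `K` with `A / K` commutative and all
of whose members have Dedekind finite quotient is `Π⁰₁`-hard, and not open.
(2) Dedekind finiteness of `A / K`, of `M_n(A / K)` for each `n ≥ 1`, and stable finiteness of
`A / K` are `Π⁰₁`-complete.
(3) They are closed conditions for every complete normed ring `A`. -/
theorem result :
    (∀ X : Set (ProperIdeal L1), (∀ K, QuotientCommutative K → K ∈ X) →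
      (∀ K ∈ X, QuotientDedekindFinite K) → ClosedHard X ∧ ¬ IsOpen X) ∧
    (ClosedComplete {K : ProperIdeal L1 | QuotientDedekindFinite K} ∧
      (∀ n : ℕ, 0 < n → ClosedComplete {K : ProperIdeal L1 | MatDF K n}) ∧
      ClosedComplete {K : ProperIdeal L1 | StablyFinite K}) ∧
    ∀ (A : Type) [NormedRing A] [CompleteSpace A],
      IsClosed {K : ProperIdeal A | QuotientDedekindFinite K} ∧
      (∀ n : ℕ, IsClosed {K : ProperIdeal A | MatDF K n}) ∧
      IsClosed {K : ProperIdeal A | StablyFinite K} := by
  obtain ⟨k, hk, hn⟩ := exists_seq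
  refine ⟨fun X h1 h2 => ⟨hard_of hk (h1 _ K0_comm) fun n hm => hn n (h2 _ hm),
      not_open_seq hk (h1 _ K0_comm) fun n hm => hn n (h2 _ hm)⟩,
    ⟨⟨closed L1, hard_of hk K0_df hn⟩, fun n h0 => ⟨closedM L1 n, hard_of hk (K0_mat n)
      fun m hm => hn m (df_of_mat h0 hm)⟩, ⟨closedS L1, hard_of hk (fun n => K0_mat n)
      fun m hm => hn m (df_of_mat one_pos (hm 1))⟩⟩, fun A _ _ => ⟨closed A, closedM A, closedS A⟩⟩

end Pool.Agent.Results.MP_332c3b_lc.ExactClass
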